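import Pool.Agent.H61AR.Mon

/-!
# Relations between the period matrices of a family at all roots of almost all polynomials
-/

set_option autoImplicit false
set_option linter.unusedSectionVars false

open Polynomial Filter Topology NumberField

namespace Pool.Agent.H61AR

open Pool.Agent.Y890.SP Pool.Agent.Y890.MV
open Pool.Agent.X255.GB (relVal)
open Pool.Agent.X255.NP (UPi IsRoots Gen ExcOn quoC pol cov_finset count_of_cov regM_prod regM_poly)
open Pool.Agent.X255.RH (VS VS_open VS_pre VS_of_mem VS_of_notMem UPi_eq Inn rts mem_rts Tame bx bx_card mem_bx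
  inn_count regular_zero excOn_cov)
open Pool.Agent.Y124 (Cov)

variable {H J : Type} [Fintype H] [DecidableEq H] [Fintype J] [DecidableEq J] {V : Set ℂ} {Y : ℂ → Matrix H J ℂ}
  {g : ℕ}

/-- the entries as a family of functions -/
def fam (Y : ℂ → Matrix H J ℂ) (q : H × J) (x : ℂ) : ℂ := Y x q.1 q.2

theorem PY_an (hY : ∀ a b, AnalyticOnNhd ℂ (fun x => Y x a b) V) (S : Finset (Fin g)) (a : {i // i ∈ S} × H) (b : J) :
    AnalyticOnNhd ℂ (fun z => PY Y S z a b) (UPi (VS V S)) := by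
  intro z hz
  have h1 : z a.1 ∈ V := hz a.1 a.1.2
  exact AnalyticAt.comp (g := fun x => Y x a.2 b) (f := fun z : Fin g → ℂ => z a.1) (hY a.2 b _ h1)
    ((ContinuousLinearMap.proj (R := ℂ) (φ := fun _ : Fin g => ℂ) (a.1 : Fin g)).analyticAt z)

theorem PY_reg (hV : IsPreconnected V) (hY : ∀ a b, AnalyticOnNhd ℂ (fun x => Y x a b) V) (h : Regular V (fam Y))
    (S : Finset (Fin g)) :
    RegularM (UPi (VS V S)) fun (v : ({i // i ∈ S} × H) × J) z => PY Y S z v.1 v.2 := by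
  classical
  have h1 : RegularM (UPi (VS V S)) (fun (q : Fin g × (H × J)) z => (if q.1 ∈ S then fam Y q.2 else fun _ => 0) (z q.1)) := by
    refine regM_prod (VS V S) (VS_pre hV S) (fun i v => if i ∈ S then fam Y v else fun _ => 0) (fun i v => ?_) fun i => ?_
    · by_cases hi : i ∈ S
      · rw [VS_of_mem hi, if_pos hi]
        exact hY v.1 v.2
      · rw [if_neg hi]
        exact analyticOnNhd_const
    · by_cases hi : i ∈ S
      · rw [VS_of_mem hi]
        simp only [if_pos hi]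
        exact h
      · simp only [if_neg hi]
        exact regular_zero _
  refine regM_poly h1 (fun v => MvPolynomial.X ((v.1.1 : Fin g), (v.1.2, v.2))) _ ?_
  rintro ⟨⟨⟨i, hi⟩, a⟩, b⟩ z
  rw [evM_X]
  simp only [if_pos hi]
  rfl

/-- Every relation of degree at most `k` between the entries of the matrices `M r`, with coefficients `∑ ξ b * c b`,
`b < k`, `c b` integers of size at most `T ^ k` of a number field of degree at most `k`, also holds for all matrices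
`N r` in `B r`. -/
def GenR {R : Type} [Fintype R] [DecidableEq R] (B : R → Set (Matrix H J ℂ)) (ξ : ℕ → ℂ) (k : ℕ) (T : ℝ)
    (M : R → Matrix H J ℂ) : Prop :=
  ∀ (F : Type) [Field F] [NumberField F], Module.finrank ℚ F ≤ k → ∀ (io : F →+* ℂ)
    (c : (R × (H × J) → Fin (k + 1)) → Fin k → 𝓞 F), (∀ l b (φ : F →+* ℂ), ‖φ (c l b : F)‖ ≤ T ^ k) →
    ∑ l, (∑ b : Fin k, ξ b * io (c l b : F)) * ∏ q, M q.1 q.2.1 q.2.2 ^ (l q : ℕ) = 0 →
    ∀ N : R → Matrix H J ℂ, (∀ r, N r ∈ B r) →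
      ∑ l, (∑ b : Fin k, ξ b * io (c l b : F)) * ∏ q, N q.1 q.2.1 q.2.2 ^ (l q : ℕ) = 0

/-- renaming the indices of a relation -/
theorem sum_tr {Q Q' : Type} [Fintype Q] [DecidableEq Q] [Fintype Q'] [DecidableEq Q'] (e : Q ≃ Q') {k : ℕ}
    (a : (Q' → Fin (k + 1)) → ℂ) (x : Q' → ℂ) :
    ∑ l : Q → Fin (k + 1), a (fun q' => l (e.symm q')) * ∏ q, x (e q) ^ (l q : ℕ) =
      ∑ l : Q' → Fin (k + 1), a l * ∏ q, x q ^ (l q : ℕ) := by
  refine Fintype.sum_equiv (Equiv.arrowCongr e (Equiv.refl _)) _ _ fun l => ?_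
  have h1 : (Equiv.arrowCongr e (Equiv.refl (Fin (k + 1)))) l = fun q' => l (e.symm q') := rfl
  rw [h1]
  congr 1
  refine Fintype.prod_equiv e _ _ fun q => ?_
  simp

/-- the matrices at the roots in `S` -/
theorem gen_genR (S : Finset (Fin g))
    {ξ : ℕ → ℂ} {k : ℕ} {T : ℝ} {z : Fin g → ℂ} (hzU : z ∈ UPi (VS V S))
    (hz : Gen (UPi (VS V S)) (PY Y S) ξ k T z) {R : Type} [Fintype R] [DecidableEq R] (e : R ≃ {i // i ∈ S}) :
    GenR (fun r : R => Fib V Y (z (e r))) ξ k T fun r : R => Y (z (e r)) := by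
  classical
  intro F _ _ hF io c hc hrel N hN
  let E : R × (H × J) ≃ (({i // i ∈ S} × H) × J) :=
    (e.prodCongr (Equiv.refl (H × J))).trans (Equiv.prodAssoc _ _ _).symm
  have hE : ∀ q, E q = ((e q.1, q.2.1), q.2.2) := fun q => rfl
  -- the relation in the other indexing
  have key := hz F hF io (fun l => c fun q => l (E q)) (fun l b φ => hc _ b φ) (by
    have h1 := sum_tr E (fun l => ∑ b : Fin k, ξ b * io (c (fun q => l (E q)) b : F))
      (fun v => PY Y S z v.1 v.2)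
    simp only [Equiv.symm_apply_apply] at h1
    rw [relVal, ← h1, ← hrel]
    rfl)
  obtain ⟨⟨G, hG1, hG2⟩, -⟩ := key
  let N' : Fin g → Matrix H J ℂ := fun i => if hi : i ∈ S then N (e.symm ⟨i, hi⟩) else 0
  have hN' : ∀ r, N' (e r) = N r := by
    intro r
    simp only [N', dif_pos (e r).2]
    congr 1
    rw [Equiv.symm_apply_eq]
  have h2 := several S G hG2 S z hzU N' (fun i hi _ => by
    obtain ⟨r, hr⟩ := e.surjective ⟨i, hi⟩
    have h3 : i = (e r : Fin g) := by rw [hr]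
    rw [h3, hN']
    exact hN r) (fun i hi hi' => absurd hi hi')
  simp only [hG1] at h2
  have h3 := sum_tr E (fun l => ∑ b : Fin k, ξ b * io (c (fun q => l (E q)) b : F))
    (fun v => QN S N' v.1 v.2)
  simp only [Equiv.symm_apply_apply] at h3
  rw [relVal, ← h3] at h2
  rw [← h2]
  refine Finset.sum_congr rfl fun l _ => ?_
  congr 1
  refine Finset.prod_congr rfl fun q _ => ?_
  congr 1
  rw [hE]
  simp only [QN, Matrix.of_apply, hN']

/-- the matrices at the roots -/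
theorem genR_roots {K : Set ℂ}
    {a : Fin (g + 1) → ℤ} {z : Fin g → ℂ} (hz : IsRoots a z)
    (hinj : Function.Injective z) (S : Finset (Fin g)) (hS : ∀ i, i ∈ S ↔ z i ∈ K) {ξ : ℕ → ℂ} {k : ℕ} {T : ℝ}
    (hzU : z ∈ UPi (VS V S)) (hgen : Gen (UPi (VS V S)) (PY Y S) ξ k T z) :
    GenR (fun x : {x // x ∈ rts K a} => Fib V Y x) ξ k T fun x : {x // x ∈ rts K a} => Y x := by
  classical
  have h1 : Function.Bijective (fun i : {i // i ∈ S} => (⟨z i, (mem_rts hz.1).2 ⟨hz.root i, (hS i).1 i.2⟩⟩ :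
      {x // x ∈ rts K a})) := by
    constructor
    · intro i j hij
      exact Subtype.ext (hinj (Subtype.mk.inj hij))
    · rintro ⟨x, hx⟩
      obtain ⟨hx1, hx2⟩ := (mem_rts hz.1).1 hx
      obtain ⟨i, rfl⟩ := (Pool.Agent.X255.RH.IsRoots.root_iff hz).1 hx1
      exact ⟨⟨i, (hS i).2 hx2⟩, rfl⟩
  let e : {i // i ∈ S} ≃ {x // x ∈ rts K a} := Equiv.ofBijective _ h1
  have h2 := gen_genR S hzU hgen e.symm
  have h5 : ∀ x : {x // x ∈ rts K a}, z (e.symm x) = x := fun x =>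
    congrArg Subtype.val (e.apply_symm_apply x)
  simp only [h5] at h2
  exact h2

/-- the exceptional polynomials -/
def ExcG (K V : Set ℂ) (Y : ℂ → Matrix H J ℂ) (R η : ℝ) (ξ : ℕ → ℂ) (k : ℕ) (T : ℝ) : Set (Fin (g + 1) → ℤ) :=
  {a | (∀ i, |(a i : ℝ)| ≤ T) ∧ Inn K V R η a ∧ 
    ¬ GenR (fun x : {x // x ∈ rts K a} => Fib V Y x) ξ k T fun x : {x // x ∈ rts K a} => Y x}

theorem excG_cov (hg : 0 < g) (hV : IsPreconnected V) (hVo : IsOpen V)
    (hY : ∀ a b, AnalyticOnNhd ℂ (fun x => Y x a b) V)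
    (h : Regular V (fam Y)) (K : Set ℂ) (R η : ℝ) (hη : 0 < η) (ξ : ℕ → ℂ) (k : ℕ) (ε : ℝ) (hε : 0 < ε) :
    ∃ (D : ℕ) (C T₀ : ℝ), 0 ≤ C ∧ 2 ≤ T₀ ∧ ∀ T : ℝ, T₀ ≤ T →
      Cov D ⌊C * T ^ ε⌋₊ (quoC '' ExcG (g := g) K V Y R η ξ k T) := by
  classical
  let 𝒦 : Finset (Fin g) → Set (Fin g → ℂ) := fun S =>
    {z | (∀ i, ‖z i‖ ≤ R) ∧ (∀ i j, i ≠ j → η ≤ ‖z i - z j‖) ∧ ∀ i ∈ S, Metric.ball (z i) η ⊆ V}
  have hcl : IsClosed {x : ℂ | Metric.ball x η ⊆ V} := by
    rw [← isSeqClosed_iff_isClosed]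
    intro x a hx ha y hy
    rw [Metric.mem_ball] at hy
    have h2 : Tendsto (fun i => dist y (x i)) atTop (nhds (dist y a)) := tendsto_const_nhds.dist ha
    obtain ⟨i, hi⟩ := (h2.eventually (gt_mem_nhds hy)).exists
    exact hx i (Metric.mem_ball.2 hi)
  have hcomp : ∀ S, IsCompact (𝒦 S) := by
    intro S
    have h1 : IsClosed (𝒦 S) := by
      have h2 : 𝒦 S = (⋂ i, {z | ‖z i‖ ≤ R}) ∩ ((⋂ (i : Fin g) (j : Fin g) (_ : i ≠ j), {z | η ≤ ‖z i - z j‖}) ∩
          ⋂ (i : Fin g) (_ : i ∈ S), (fun z : Fin g → ℂ => z i) ⁻¹' {x : ℂ | Metric.ball x η ⊆ V}) := by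
        ext z
        simp [𝒦]
      rw [h2]
      refine (isClosed_iInter fun i => isClosed_le (continuous_apply i).norm continuous_const).inter (IsClosed.inter ?_ ?_)
      · exact isClosed_iInter fun i => isClosed_iInter fun j => isClosed_iInter fun _ =>
          isClosed_le continuous_const (((continuous_apply i).sub (continuous_apply j)).norm)
      · exact isClosed_iInter fun i => isClosed_iInter fun _ => hcl.preimage (continuous_apply i)
    refine Metric.isCompact_of_isClosed_isBounded h1 ((Metric.isBounded_closedBall (x := (0 : Fin g → ℂ))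
      (r := max R 0)).subset fun z hz => ?_)
    rw [Metric.mem_closedBall, dist_zero_right, pi_norm_le_iff_of_nonneg (le_max_right _ _)]
    exact fun i => (hz.1 i).trans (le_max_left _ _)
  have h𝒦U : ∀ S, 𝒦 S ⊆ UPi (VS V S) := by
    intro S z hz i hi
    exact hz.2.2 i hi (Metric.mem_ball_self hη)
  have hinj : ∀ S, ∀ z ∈ 𝒦 S, Function.Injective z := by
    intro S z hz i j hij
    by_contra hne
    have h1 := hz.2.1 i j hne
    rw [hij, sub_self, norm_zero] at h1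
    linarith
  obtain ⟨D, C, T₀, hC, hT₀, HH⟩ := cov_finset ε (Finset.univ : Finset (Finset (Fin g)))
    (fun S T => quoC '' ExcOn (UPi (VS V S)) (PY Y S) ξ k (𝒦 S) T) fun S _ =>
      excOn_cov hg (by rw [UPi_eq]; exact isPreconnected_univ_pi (VS_pre hV S))
        (by rw [UPi_eq]; exact isOpen_set_pi Set.finite_univ fun i _ => VS_open hVo S i)
        (PY_an hY S) (PY_reg hV hY h S) ξ k (𝒦 S) (hcomp S) (h𝒦U S) (hinj S) ε hε
  refine ⟨D, C, T₀, hC, hT₀, fun T hT => (HH T hT).mono le_rfl le_rfl ?_⟩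
  rintro _ ⟨a, ⟨ha, ⟨z, hz, hz1, hz2, hz3⟩, hno⟩, rfl⟩
  let S : Finset (Fin g) := Finset.univ.filter fun i => z i ∈ K
  have hS : ∀ i, i ∈ S ↔ z i ∈ K := fun i => by simp [S]
  have hzK : z ∈ 𝒦 S := ⟨hz1, hz2, fun i hi => hz3 i ((hS i).1 hi)⟩
  refine Set.mem_iUnion₂.2 ⟨S, Finset.mem_univ _, a, ⟨ha, z, hzK, hz, fun hgen => hno ?_⟩, rfl⟩
  exact genR_roots hz (hinj S z hzK) S hS (h𝒦U S hzK) hgen

/-- `a` is of degree `g`, has simple roots, and all relations between the matrices at its roots in `K` hold on the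
fibres of the Zariski closure of the graph -/
def Good (K V : Set ℂ) (Y : ℂ → Matrix H J ℂ) (ξ : ℕ → ℂ) (k : ℕ) (T : ℝ) (a : Fin (g + 1) → ℤ) : Prop :=
  a (Fin.last g) ≠ 0 ∧ (pol a).Separable ∧
    GenR (fun x : {x // x ∈ rts K a} => Fib V Y x) ξ k T fun x : {x // x ∈ rts K a} => Y x

open scoped Classical in
theorem count_k (hg : 0 < g) (hV : IsPreconnected V) (hVo : IsOpen V) {K : Set ℂ} (hVt : Tame K V)
    (hY : ∀ a b, AnalyticOnNhd ℂ (fun x => Y x a b) V)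
    (h : Regular V (fam Y)) (ξ : ℕ → ℂ) (k : ℕ) (hk : 1 ≤ k) :
    ∃ T₀ : ℕ, ∀ T, T₀ ≤ T → (k : ℝ) * ((bx g T).filter fun a => ¬ Good K V Y ξ k T a).card ≤ (bx g T).card := by
  have hk' : (1 : ℝ) ≤ k := by exact_mod_cast hk
  obtain ⟨R, η, T₁, hη, hinn⟩ := inn_count hg hVt (δ := 1 / (2 * k)) (by positivity)
  obtain ⟨D, C, T₂, hC, hT₂, HH⟩ := excG_cov hg hV hVo hY h K R η hη ξ k (1 / 2) (by norm_num)
  refine ⟨max (max 1 T₁) (max ⌈T₂⌉₊ ⌈(2 * k * (C * D * 3 ^ g)) ^ 2⌉₊), fun T hT => ?_⟩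
  simp only [max_le_iff] at hT
  obtain ⟨⟨hT1, hTa⟩, hTb, hTc⟩ := hT
  have hTr : (1 : ℝ) ≤ T := by exact_mod_cast hT1
  have hTp : (0 : ℝ) < T := by linarith
  have hTb' : T₂ ≤ T := Nat.ceil_le.1 hTb
  have hTc' : (2 * k * (C * D * 3 ^ g)) ^ 2 ≤ (T : ℝ) := Nat.ceil_le.1 hTc
  obtain ⟨h7, h8⟩ := count_of_cov hg (ExcG (g := g) K V Y R η ξ k T) hTr (by
    rintro a ⟨ha, hi, _⟩
    exact ⟨ha, hi.lead⟩) (HH T hTb')
  have hsub : ((bx g T).filter fun a => ¬ Good K V Y ξ k T a) ⊆ ((bx g T).filter fun a => ¬ Inn K V R η a) ∪ h7.toFinset := by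
    intro a ha
    rw [Finset.mem_filter] at ha
    rw [Finset.mem_union, Finset.mem_filter, Set.Finite.mem_toFinset]
    by_cases hi : Inn K V R η a
    · right
      refine ⟨fun i => by exact_mod_cast mem_bx.1 ha.1 i, hi, fun hno => ha.2 ⟨hi.lead, hi.sep hη, hno⟩⟩
    · exact Or.inl ⟨ha.1, hi⟩
  have h1 := (Finset.card_le_card hsub).trans (Finset.card_union_le _ _)
  rw [← Set.ncard_eq_toFinset_card _ h7] at h1
  have h2 : (((bx g T).filter fun a => ¬ Good K V Y ξ k T a).card : ℝ) ≤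
      ((bx g T).filter fun a => ¬ Inn K V R η a).card + (ExcG (g := g) K V Y R η ξ k T).ncard := by exact_mod_cast h1
  have h3 := hinn T hTa
  set Bx : ℝ := ((bx g T).card : ℝ) with hBx
  have hBx0 : 0 ≤ Bx := Nat.cast_nonneg _
  -- the second part
  have h4 : 2 * k * ((ExcG (g := g) K V Y R η ξ k T).ncard : ℝ) ≤ Bx := by
    have hsq : ((T : ℝ)) ^ (1 / 2 : ℝ) = √T := by rw [Real.sqrt_eq_rpow]
    rw [hsq] at h8
    have hs : 2 * k * (C * D * 3 ^ g) ≤ √(T : ℝ) := Real.le_sqrt_of_sq_le hTc'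
    have hfl : ((⌊C * √(T : ℝ)⌋₊ : ℕ) : ℝ) ≤ C * √T := Nat.floor_le (by positivity)
    have hTT : √(T : ℝ) * √T = T := Real.mul_self_sqrt (by positivity)
    calc 2 * k * ((ExcG (g := g) K V Y R η ξ k T).ncard : ℝ)
        ≤ 2 * k * ((⌊C * √(T : ℝ)⌋₊ : ℝ) * D * (3 * T) ^ g) := mul_le_mul_of_nonneg_left h8 (by positivity)
      _ ≤ 2 * k * ((C * √T) * D * (3 * T) ^ g) := by gcongr
      _ = (2 * k * (C * D * 3 ^ g)) * (√T * T ^ g) := by rw [mul_pow]; ring
      _ ≤ √T * (√T * T ^ g) := mul_le_mul_of_nonneg_right hs (by positivity)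
      _ = T ^ (g + 1) := by rw [← mul_assoc, hTT, pow_succ]; ring
      _ ≤ (2 * (T : ℝ) + 1) ^ (g + 1) := pow_le_pow_left₀ (by positivity) (by linarith) _
      _ = Bx := by rw [hBx, bx_card]
  have h5 : (k : ℝ) * (1 / (2 * k) * Bx) = Bx / 2 := by
    field_simp
  nlinarith

open scoped Classical in
/-- **Almost all polynomials.** -/
theorem main_all (hg : 0 < g) (hV : IsPreconnected V) (hVo : IsOpen V) (K : ℕ → Set ℂ) (hVt : ∀ k, Tame (K k) V)
    (hY : ∀ a b, AnalyticOnNhd ℂ (fun x => Y x a b) V) (h : Regular V (fam Y)) (ξ : ℕ → ℂ) :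
    ∃ ω : ℕ → ℕ, Tendsto ω atTop atTop ∧ Monotone ω ∧ ∀ T,
      ω T * ((bx g T).filter fun a => ¬ Good (K (ω T)) V Y ξ (ω T) T a).card ≤ (bx g T).card := by
  obtain ⟨ω, T₀, h1, h2, h3⟩ := exists_omega
    (fun k T => (k : ℝ) * ((bx g ⌊T⌋₊).filter fun a => ¬ Good (K k) V Y ξ k (⌊T⌋₊ : ℕ) a).card ≤ (bx g ⌊T⌋₊).card) (by
      intro k
      obtain ⟨B₀, hB₀⟩ := count_k hg hV hVo (hVt (k + 1)) hY h ξ (k + 1) (Nat.succ_pos k)
      exact ⟨B₀, fun T hT => hB₀ _ (Nat.le_floor hT)⟩)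
  refine ⟨fun B => if T₀ ≤ B then ω B else 0, ?_, ?_, ?_⟩
  · have h4 : (fun B : ℕ => if T₀ ≤ B then ω B else 0) =ᶠ[atTop] fun B : ℕ => ω B := by
      filter_upwards [eventually_ge_atTop ⌈T₀⌉₊] with B hB
      rw [if_pos (Nat.ceil_le.1 hB)]
    exact Tendsto.congr' h4.symm (h1.comp tendsto_natCast_atTop_atTop)
  · intro B B' hBB
    have hc : (B : ℝ) ≤ B' := by exact_mod_cast hBB
    by_cases h4 : T₀ ≤ (B : ℝ)
    · simp only [if_pos h4, if_pos (h4.trans hc)]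
      exact h2 hc
    · simp only [if_neg h4]
      exact Nat.zero_le _
  · intro B
    by_cases h4 : T₀ ≤ (B : ℝ)
    · simp only [if_pos h4]
      have h5 := (h3 B h4).2
      simp only [Nat.floor_natCast] at h5
      exact_mod_cast h5
    · simp only [if_neg h4, zero_mul]
      exact Nat.zero_le _

open scoped Classical in
/-- **A power saving for polynomials with roots in a compact position.** -/
theorem main_eps (hg : 0 < g) (hV : IsPreconnected V) (hVo : IsOpen V)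
    (hY : ∀ a b, AnalyticOnNhd ℂ (fun x => Y x a b) V)
    (h : Regular V (fam Y)) (K : Set ℂ) (ξ : ℕ → ℂ) (k : ℕ) (R η ε : ℝ) (hη : 0 < η) (hε : 0 < ε) :
    ∃ C : ℝ, ∀ T : ℕ, 1 ≤ T →
      (((bx g T).filter fun a => Pool.Agent.X255.RH.Pos K V R η a ∧
        ¬ GenR (fun x : {x // x ∈ rts K a} => Fib V Y x) ξ k T fun x : {x // x ∈ rts K a} => Y x).card : ℝ) ≤
        C * (T : ℝ) ^ ((g : ℝ) + ε) := by
  obtain ⟨D, C, T₀, hC, hT₀, HH⟩ := excG_cov hg hV hVo hY h K R η hη ξ k ε hε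
  refine ⟨max (C * D * 3 ^ g) ((2 * T₀ + 1) ^ (g + 1)), fun T hT => ?_⟩
  have hTr : (1 : ℝ) ≤ T := by exact_mod_cast hT
  have hTp : (0 : ℝ) < T := by linarith
  rcases le_or_gt T₀ (T : ℝ) with hTT | hTT
  · obtain ⟨h7, h8⟩ := count_of_cov hg (ExcG (g := g) K V Y R η ξ k T) hTr (by
      rintro a ⟨ha, hi, _⟩
      exact ⟨ha, hi.lead⟩) (HH T hTT)
    have hsub : (((bx g T).filter fun a => Pool.Agent.X255.RH.Pos K V R η a ∧
        ¬ GenR (fun x : {x // x ∈ rts K a} => Fib V Y x) ξ k T fun x : {x // x ∈ rts K a} => Y x) : Finset _) ⊆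
          h7.toFinset := by
      intro a ha
      rw [Finset.mem_filter] at ha
      rw [Set.Finite.mem_toFinset]
      exact ⟨fun i => by exact_mod_cast mem_bx.1 ha.1 i, ha.2.1.inn, ha.2.2⟩
    have h1 := Finset.card_le_card hsub
    rw [← Set.ncard_eq_toFinset_card _ h7] at h1
    have h2 : (((bx g T).filter fun a => Pool.Agent.X255.RH.Pos K V R η a ∧
        ¬ GenR (fun x : {x // x ∈ rts K a} => Fib V Y x) ξ k T fun x : {x // x ∈ rts K a} => Y x).card : ℝ) ≤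
        (ExcG (g := g) K V Y R η ξ k T).ncard := by exact_mod_cast h1
    refine h2.trans (h8.trans ?_)
    have hfl : ((⌊C * (T : ℝ) ^ ε⌋₊ : ℕ) : ℝ) ≤ C * (T : ℝ) ^ ε := Nat.floor_le (by positivity)
    calc (⌊C * (T : ℝ) ^ ε⌋₊ : ℝ) * D * (3 * T) ^ g ≤ (C * (T : ℝ) ^ ε) * D * (3 * T) ^ g := by gcongr
      _ = (C * D * 3 ^ g) * (T : ℝ) ^ ((g : ℝ) + ε) := by
          rw [Real.rpow_add hTp, Real.rpow_natCast, mul_pow]
          ring
      _ ≤ _ := mul_le_mul_of_nonneg_right (le_max_left _ _) (by positivity)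
  · have h1 : (((bx g T).filter fun a => Pool.Agent.X255.RH.Pos K V R η a ∧
        ¬ GenR (fun x : {x // x ∈ rts K a} => Fib V Y x) ξ k T fun x : {x // x ∈ rts K a} => Y x).card : ℝ) ≤
          (bx g T).card := by
      exact_mod_cast Finset.card_le_card (Finset.filter_subset _ _)
    refine h1.trans ?_
    rw [bx_card]
    have h2 : (2 * (T : ℝ) + 1) ^ (g + 1) ≤ (2 * T₀ + 1) ^ (g + 1) := pow_le_pow_left₀ (by positivity) (by linarith) _
    refine (h2.trans (le_max_right (C * D * 3 ^ g) _)).trans ?_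
    refine le_mul_of_one_le_right (le_trans (by positivity) (le_max_right _ ((2 * T₀ + 1) ^ (g + 1)))) ?_
    exact Real.one_le_rpow hTr (by positivity)

end Pool.Agent.H61AR
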