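import Pool.Agent.X255.RH.Main

/-!
# Relations between matrices of functions at several points are preserved by the monodromy
-/

set_option autoImplicit false
set_option linter.unusedSectionVars false

open Polynomial Filter Topology NumberField

namespace Pool.Agent.H61AR

open Pool.Agent.X255.GB (relVal)
open Pool.Agent.X255.NP (UPi)
open Pool.Agent.X255.RH (VS)

variable {H J : Type} [Fintype H] [DecidableEq H] [Fintype J] [DecidableEq J] {V : Set ℂ} {Y : ℂ → Matrix H J ℂ}

/-- `Z` on `W` is obtained from `Y` on `V` by analytic continuation along a chain of connected sets -/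
inductive Ct (V : Set ℂ) (Y : ℂ → Matrix H J ℂ) : Set ℂ → (ℂ → Matrix H J ℂ) → Prop
  | refl : Ct V Y V Y
  | step (W W' D : Set ℂ) (Z Z' : ℂ → Matrix H J ℂ) : Ct V Y W Z → IsPreconnected W' →
      (∀ a b, AnalyticOnNhd ℂ (fun x => Z' x a b) W') → IsOpen D → D.Nonempty → D ⊆ W → D ⊆ W' →
      (∀ x ∈ D, Z' x = Z x) → Ct V Y W' Z'

/-- `γ` is a monodromy matrix -/
def IsMon (V : Set ℂ) (Y : ℂ → Matrix H J ℂ) (γ : Matrix H H ℂ) : Prop :=
  ∃ (W D : Set ℂ) (Z : ℂ → Matrix H J ℂ), Ct V Y W Z ∧ IsOpen D ∧ D.Nonempty ∧ D ⊆ W ∧ D ⊆ V ∧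
    ∀ x ∈ D, Z x = γ * Y x

/-- the Zariski closure of the monodromy -/
def AlgMon (V : Set ℂ) (Y : ℂ → Matrix H J ℂ) : Set (Matrix H H ℂ) :=
  {g | ∀ R : MvPolynomial (H × H) ℂ, (∀ γ, IsMon V Y γ → MvPolynomial.eval (fun q => γ q.1 q.2) R = 0) →
    MvPolynomial.eval (fun q => g q.1 q.2) R = 0}

/-- the point with the coordinates `x` and the entries of `M` -/
def pt (x : ℂ) (M : Matrix H J ℂ) : Option (H × J) → ℂ := fun o => o.elim x fun q => M q.1 q.2

theorem an_pt {W : Set ℂ} {Z : ℂ → Matrix H J ℂ} (hZ : ∀ a b, AnalyticOnNhd ℂ (fun x => Z x a b) W)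
    (Q : MvPolynomial (Option (H × J)) ℂ) : AnalyticOnNhd ℂ (fun x => MvPolynomial.eval (pt x (Z x)) Q) W := by
  induction Q using MvPolynomial.induction_on with
  | C a =>
    simp only [MvPolynomial.eval_C]
    exact analyticOnNhd_const
  | add p q hp hq =>
    simp only [map_add]
    exact hp.add hq
  | mul_X p i hp =>
    simp only [map_mul, MvPolynomial.eval_X]
    refine hp.mul ?_
    rcases i with _ | q
    · exact analyticOnNhd_id
    · exact hZ q.1 q.2

theorem Ct.rel {Q : MvPolynomial (Option (H × J)) ℂ} (hQ : ∀ x ∈ V, MvPolynomial.eval (pt x (Y x)) Q = 0)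
    {W : Set ℂ} {Z : ℂ → Matrix H J ℂ} (h : Ct V Y W Z) : ∀ x ∈ W, MvPolynomial.eval (pt x (Z x)) Q = 0 := by
  induction h with
  | refl => exact hQ
  | step W W' D Z Z' _ hc hZ hDo hDn hDW hDW' heq ih =>
    obtain ⟨x0, hx0⟩ := hDn
    refine (an_pt hZ Q).eqOn_zero_of_preconnected_of_eventuallyEq_zero hc (hDW' hx0) ?_
    filter_upwards [hDo.mem_nhds hx0] with x hx
    rw [heq x hx]
    exact ih x (hDW hx)

theorem IsMon.rel (hV : IsPreconnected V) (hY : ∀ a b, AnalyticOnNhd ℂ (fun x => Y x a b) V)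
    {Q : MvPolynomial (Option (H × J)) ℂ} (hQ : ∀ x ∈ V, MvPolynomial.eval (pt x (Y x)) Q = 0)
    {γ : Matrix H H ℂ} (hγ : IsMon V Y γ) : ∀ x ∈ V, MvPolynomial.eval (pt x (γ * Y x)) Q = 0 := by
  obtain ⟨W, D, Z, hc, hDo, ⟨x0, hx0⟩, hDW, hDV, heq⟩ := hγ
  have hP2 : ∀ a b, AnalyticOnNhd ℂ (fun x => (γ * Y x) a b) V := by
    intro a b
    simp only [Matrix.mul_apply]
    refine Finset.analyticOnNhd_fun_sum _ fun c _ => ?_
    exact analyticOnNhd_const.mul (hY c b)
  refine (an_pt hP2 Q).eqOn_zero_of_preconnected_of_eventuallyEq_zero hV (hDV hx0) ?_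
  filter_upwards [hDo.mem_nhds hx0] with x hx
  rw [← heq x hx]
  exact hc.rel hQ x (hDW hx)

theorem alg_rel (hV : IsPreconnected V) (hY : ∀ a b, AnalyticOnNhd ℂ (fun x => Y x a b) V)
    {Q : MvPolynomial (Option (H × J)) ℂ} (hQ : ∀ x ∈ V, MvPolynomial.eval (pt x (Y x)) Q = 0)
    {γ : Matrix H H ℂ} (hγ : γ ∈ AlgMon V Y) : ∀ x ∈ V, MvPolynomial.eval (pt x (γ * Y x)) Q = 0 := by
  intro x hx
  let φ : MvPolynomial (Option (H × J)) ℂ →+* MvPolynomial (H × H) ℂ :=
    MvPolynomial.eval₂Hom MvPolynomial.C fun o : Option (H × J) => o.elim (MvPolynomial.C x) fun q =>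
      ∑ c, MvPolynomial.X (q.1, c) * MvPolynomial.C (Y x c q.2)
  have hR : ∀ γ : Matrix H H ℂ, MvPolynomial.eval (fun q => γ q.1 q.2) (φ Q) =
      MvPolynomial.eval (pt x (γ * Y x)) Q := by
    intro γ
    have h1 : (MvPolynomial.eval fun q : H × H => γ q.1 q.2).comp φ = MvPolynomial.eval (pt x (γ * Y x)) := by
      refine MvPolynomial.ringHom_ext (fun a => ?_) fun o => ?_
      · simp [φ]
      · rcases o with _ | q
        · simp [φ, pt]
        · simp [φ, pt, Matrix.mul_apply]
    exact RingHom.congr_fun h1 Q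
  rw [← hR]
  refine hγ (φ Q) fun γ' hγ' => ?_
  rw [hR]
  exact hγ'.rel hV hY hQ x hx

/-- the fibre at `x` of the Zariski closure of the graph of `Y` -/
def Fib (V : Set ℂ) (Y : ℂ → Matrix H J ℂ) (x : ℂ) : Set (Matrix H J ℂ) :=
  {M | ∀ Q : MvPolynomial (Option (H × J)) ℂ, (∀ t ∈ V, MvPolynomial.eval (pt t (Y t)) Q = 0) →
    MvPolynomial.eval (pt x M) Q = 0}

theorem orbit_sub (hV : IsPreconnected V) (hY : ∀ a b, AnalyticOnNhd ℂ (fun x => Y x a b) V) {x : ℂ} (hx : x ∈ V)
    {γ : Matrix H H ℂ} (hγ : γ ∈ AlgMon V Y) : γ * Y x ∈ Fib V Y x :=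
  fun _ hQ => alg_rel hV hY hQ hγ x hx

/-! ### Several points -/

variable {g : ℕ}

/-- the matrices `Y (z i)`, one below the other -/
def PY (Y : ℂ → Matrix H J ℂ) (S : Finset (Fin g)) (z : Fin g → ℂ) : Matrix ({i // i ∈ S} × H) J ℂ :=
  Matrix.of fun q j => Y (z q.1) q.2 j

/-- the matrices `N i`, one below the other -/
def QN (S : Finset (Fin g)) (N : Fin g → Matrix H J ℂ) : Matrix ({i // i ∈ S} × H) J ℂ :=
  Matrix.of fun q j => N q.1 q.2 j

theorem upd_mem {S : Finset (Fin g)} {i0 : Fin g} {x : ℂ} (hx : x ∈ V) {z : Fin g → ℂ} (hz : z ∈ UPi (VS V S)) :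
    Function.update z i0 x ∈ UPi (VS V S) := by
  intro i hi
  by_cases h : i = i0
  · subst h
    simpa using hx
  · rw [Function.update_of_ne h]
    exact hz i hi

theorem several (S : Finset (Fin g))
    {k : ℕ} (G : (({i // i ∈ S} × H) × J → Fin (k + 1)) → MvPolynomial (Fin g) ℂ)
    (hG : ∀ z ∈ UPi (VS V S), relVal (fun l => MvPolynomial.eval z (G l)) (PY Y S z) = 0) (A : Finset (Fin g)) :
    ∀ z ∈ UPi (VS V S), ∀ N : Fin g → Matrix H J ℂ, (∀ i ∈ S, i ∈ A → N i ∈ Fib V Y (z i)) →
      (∀ i ∈ S, i ∉ A → N i = Y (z i)) → relVal (fun l => MvPolynomial.eval z (G l)) (QN S N) = 0 := by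
  classical
  induction A using Finset.induction_on with
  | empty =>
    intro z hz N _ hN
    have h1 : QN S N = PY Y S z := by
      ext q j
      simp only [QN, PY, Matrix.of_apply, hN q.1 q.1.2 (Finset.notMem_empty _)]
    rw [h1]
    exact hG z hz
  | insert i0 A hi0 ih =>
    intro z hz N hN1 hN2
    by_cases hS : i0 ∈ S
    swap
    · refine ih z hz N (fun i hi hA => hN1 i hi (Finset.mem_insert_of_mem hA)) fun i hi hA => ?_
      refine hN2 i hi fun h => ?_
      rcases Finset.mem_insert.1 h with h | h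
      · exact hS (h ▸ hi)
      · exact hA h
    -- the polynomial in one variable
    let w : ({i // i ∈ S} × H) × J → MvPolynomial (Option (H × J)) ℂ := fun v =>
      if (v.1.1 : Fin g) = i0 then MvPolynomial.X (some (v.1.2, v.2)) else MvPolynomial.C (QN S N v.1 v.2)
    let ψ : MvPolynomial (Fin g) ℂ →+* MvPolynomial (Option (H × J)) ℂ :=
      MvPolynomial.eval₂Hom MvPolynomial.C fun i => if i = i0 then MvPolynomial.X none else MvPolynomial.C (z i)
    let Q : MvPolynomial (Option (H × J)) ℂ := ∑ l, ψ (G l) * ∏ v, w v ^ (l v : ℕ)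
    have hψ : ∀ (x : ℂ) (M : Matrix H J ℂ) (p : MvPolynomial (Fin g) ℂ),
        MvPolynomial.eval (pt x M) (ψ p) = MvPolynomial.eval (Function.update z i0 x) p := by
      intro x M p
      have h1 : (MvPolynomial.eval (pt x M)).comp ψ = MvPolynomial.eval (Function.update z i0 x) := by
        refine MvPolynomial.ringHom_ext (fun a => ?_) fun i => ?_
        · simp [ψ]
        · by_cases h : i = i0
          · subst h
            simp [ψ, pt]
          · simp [ψ, h]
      exact RingHom.congr_fun h1 p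
    have hQ : ∀ (x : ℂ) (M : Matrix H J ℂ), MvPolynomial.eval (pt x M) Q =
        relVal (fun l => MvPolynomial.eval (Function.update z i0 x) (G l)) (QN S (Function.update N i0 M)) := by
      intro x M
      simp only [Q, relVal, map_sum, map_mul, map_prod, map_pow, hψ]
      refine Finset.sum_congr rfl fun l _ => ?_
      congr 1
      refine Finset.prod_congr rfl fun v _ => ?_
      congr 1
      simp only [w, QN, Matrix.of_apply]
      by_cases h : (v.1.1 : Fin g) = i0
      · simp [h, pt]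
      · simp [h]
    have h1 : ∀ x ∈ V, MvPolynomial.eval (pt x (Y x)) Q = 0 := by
      intro x hx
      rw [hQ]
      refine ih _ (upd_mem hx hz) _ (fun i hi hA => ?_) fun i hi hA => ?_
      · have h2 : i ≠ i0 := fun h => hi0 (h ▸ hA)
        rw [Function.update_of_ne h2, Function.update_of_ne h2]
        exact hN1 i hi (Finset.mem_insert_of_mem hA)
      · by_cases h2 : i = i0
        · subst h2
          simp
        · rw [Function.update_of_ne h2, Function.update_of_ne h2]
          exact hN2 i hi fun h => by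
            rcases Finset.mem_insert.1 h with h | h
            · exact h2 h
            · exact hA h
    have h3 := hN1 i0 hS (Finset.mem_insert_self _ _) Q h1
    rw [hQ, Function.update_eq_self, Function.update_eq_self] at h3
    exact h3

end Pool.Agent.H61AR
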